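import Pool.Agent.helper59.FI.SpecB2

set_option autoImplicit false

namespace Pool.Agent.FI

open Pool.Agent.helper58.DC Pool.Agent.DI Pool.Agent.GR Pool.Agent.OB

lemma COA_com {G : Type} [Group G] {D R : Subgroup G} (hD : ∀ c ∈ D, ∀ d ∈ D, c * d = d * c) (l : G)
    (h : ∀ r ∈ R, l * r * l⁻¹ ∈ D) : ∀ c ∈ R, ∀ d ∈ R, c * d = d * c := by
  intro c hc d hd
  have h1 := hD _ (h c hc) _ (h d hd)
  have h2 : l * (c * d) * l⁻¹ = l * (d * c) * l⁻¹ := by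
    calc l * (c * d) * l⁻¹ = (l * c * l⁻¹) * (l * d * l⁻¹) := by group
      _ = (l * d * l⁻¹) * (l * c * l⁻¹) := h1
      _ = l * (d * c) * l⁻¹ := by group
  exact mul_left_cancel (mul_right_cancel h2)

theorem COA (hFMT : FMT_stmt) (hEXT : EXT_stmt) (hCNTL : CNTL_stmt) (hALP : ALP_stmt) (hDUN : DUN_stmt)
    (hSYL : SYL_stmt) (hTPR : TPR_stmt) : COA_stmt := by
  classical
  intro p M hS G _ _ D x θ χ hRt Q hQ ψ hψ hψχ D₁ x₁ hD₁ θ₁ hθ₁ hSB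
  have : Fact p.Prime := ⟨hS.pr⟩
  obtain ⟨_, _, hT3, hT4, _⟩ := hTPR p M hS G
  have hDt : DefL p M ⊤ χ D x := hT3 χ D x hRt.dfa
  have hSB1 : SB M ⊤ ψ χ := (SB_top_iff hS).2 hψχ
  have hψ' : ψ ∈ IrrOn (⊤ ⊓ cz Q) := by rw [top_inf_eq]; exact hψ
  obtain ⟨l, _, hl⟩ := hCNTL p M hS G ⊤ Q hQ le_top ψ hψ' χ hSB1 D x hDt
  have hQc := COA_com hRt.com l hl
  have hQL : Q ≤ cz Q := le_cz_of_com hQc
  have hx₁ : x₁ ∈ cz Q := hD₁.mem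
  have hQx : Q ≤ Cz (cz Q) x₁ := by
    intro r hr
    rw [mem_Cz]
    refine ⟨hQL hr, ?_⟩
    rw [Subgroup.mem_centralizer_iff] at hx₁
    exact (hx₁ r hr).symm
  obtain ⟨_, _, hSY, _⟩ := hSYL p G
  obtain ⟨k, hk, hk1, _⟩ := hSY D₁ (Cz (cz Q) x₁) Q hD₁.pg hD₁.le hD₁.card hQ hQx
  have hQD : Q ≤ D₁ := by
    intro r hr
    have h1 := hk1 r hr
    have h2 : k ∈ cz Q := (mem_Cz.1 hk).1
    rw [Subgroup.mem_centralizer_iff] at h2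
    have h3 := h2 r hr
    have h4 : k * r * k⁻¹ = r := by rw [← h3]; group
    rwa [h4] at h1
  have hczle : cz D₁ ≤ cz Q := cz_mono hQD
  have hinf : cz Q ⊓ cz D₁ = cz D₁ := inf_eq_right.2 hczle
  have hθ₁' : θ₁ ∈ IrrOn (cz D₁) := by rw [hinf] at hθ₁; exact hθ₁
  have hSB2 : SB M ⊤ θ₁ ψ := TRNb (le_top : cz Q ≤ ⊤)
    (fun y hy => IrrOn_zero hθ₁' (fun h => hy (hczle h))) (fun y hy => IrrOn_zero hψ hy) hSB
  have hSB3 : SB M ⊤ θ₁ χ := hSB2.trans hSB1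
  have hInd : Induces M θ₁ χ := (SB_top_iff hS).1 hSB3
  have hθ₁'' : θ₁ ∈ IrrOn (⊤ ⊓ cz D₁) := by rw [top_inf_eq]; exact hθ₁'
  obtain ⟨g, _, hg⟩ := hCNTL p M hS G ⊤ D₁ hD₁.pg le_top θ₁ hθ₁'' χ hSB3 D x hDt
  have hD₁c := COA_com hRt.com g hg
  have hle : D₁.map (MulAut.conj g).toMonoidHom ≤ D := by
    rintro _ ⟨r, hr, rfl⟩
    exact hg r hr
  have hcardmap : Nat.card (D₁.map (MulAut.conj g).toMonoidHom) = Nat.card D₁ := card_cj g D₁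
  refine ⟨hQD, hInd, g, ?_⟩
  by_contra hne
  have hlt : Nat.card D₁ < Nat.card D := by
    rcases lt_or_ge (Nat.card D₁) (Nat.card D) with h | h
    · exact h
    · exact absurd (Subgroup.eq_of_le_of_card_ge hle (by rw [hcardmap]; exact h)) hne
  obtain ⟨w, hw, _, _, hwc, hwn, _⟩ := hALP p M hS G (cz Q) D₁ x₁ ψ hD₁ hD₁c θ₁ hθ₁ hSB
  rw [hinf] at hw hwc hwn
  by_cases hp : p ∣ (cz D₁).relIndex (TT M D₁ θ₁)
  · obtain ⟨R', hR'p, hDR', hR'n, a, ha, han⟩ := hEXT p M hS G χ hRt.chi D₁ hD₁.pg hD₁c θ₁ hθ₁' hInd hp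
    have hχt : χ ∈ IrrOn (⊤ : Subgroup G) := IrrOn_top.2 hRt.chi
    have han' : ¬ InM M (eS ⊤ (Bl M ⊤ χ) a) := by
      have h1 : Blk M χ ⊤ = Bl M ⊤ χ := hT4 χ ⊤
      rwa [h1] at han
    have hRa : R' ≤ Cz ⊤ a := by
      intro r hr
      rw [mem_Cz]
      refine ⟨Subgroup.mem_top r, ?_⟩
      rw [Subgroup.mem_centralizer_iff] at ha
      exact (ha r hr).symm
    obtain ⟨m, _, hm⟩ := (hDUN p M hS G ⊤ χ hχt D x hDt).2.2 a (Subgroup.mem_top a) han' R' hR'p hRa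
    have hR'c := COA_com hRt.com m⁻¹ (fun r hr => by rw [inv_inv]; exact hm r hr)
    exact hR'n ((le_cz_of_com hR'c).trans (cz_mono hDR'))
  · obtain ⟨y, hy1, hy2⟩ := hFMT p M hS G χ hRt.chi D₁ hD₁.pg hD₁c θ₁ hθ₁' hInd w hw hwc hwn hp
    have h1 := hRt.dfa.min y hy1
    omega

end Pool.Agent.FI
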